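import Pool.Agent.H.MP_554556_an.C

set_option autoImplicit false

namespace Pool.Agent.Results.MP_9437d9_an.Definite
open Matrix Quaternion Pool.Agent.H.MP_554556_an

/-- `A k` is hermitian for odd `k` and skewhermitian for even `k` -/
def Adm {n : ℕ} (l : ℕ) (A : ℕ → Matrix (Fin n) (Fin n) ℍ) : Prop :=
  ∀ k ≤ l, (Odd k → (A k)ᴴ = A k) ∧ (Even k → (A k)ᴴ = -A k)

theorem adm_iff {n : ℕ} (l : ℕ) (A : ℕ → Matrix (Fin n) (Fin n) ℍ) :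
    Adm l A ↔ ∀ k ≤ l, (A k)ᴴ = ((-1) ^ k * (-1 : ℝ)) • A k := by
  refine forall₂_congr fun k _ => ?_
  rcases Nat.even_or_odd k with h | h
  · simp [h, h.neg_one_pow, Nat.not_odd_iff_even.mpr h]
  · simp [h, h.neg_one_pow, Nat.not_even_iff_odd.mpr h]

theorem result (n l : ℕ) (hl : 1 ≤ l) (A : ℕ → Matrix (Fin n) (Fin n) ℍ)
    (B : Matrix (Fin n) (Fin n) ℍ) (hB : A l * B = 1 ∧ B * A l = 1) (hA : Adm l A)
    (hst : StablyBdd l (Adm l) A) (z : ℍ) (hz : IsEig (compan l A B) z) :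
    (∀ v ∈ Root (compan l A B) z, v ≠ 0 →
      (star v ⬝ᵥ gmat l A *ᵥ v).im = 0 ∧ 0 < (star v ⬝ᵥ gmat l A *ᵥ v).re) ∨
    (∀ v ∈ Root (compan l A B) z, v ≠ 0 →
      (star v ⬝ᵥ gmat l A *ᵥ v).im = 0 ∧ (star v ⬝ᵥ gmat l A *ᵥ v).re < 0) := by
  obtain ⟨m, rfl⟩ : ∃ m, l = m + 1 := ⟨l - 1, by omega⟩
  obtain ⟨ε, hε, hs⟩ := hst
  rw [adm_iff] at hA
  have hr := bf_real (by simpa using G_adj hA : (gmat (m + 1) A)ᴴ = gmat (m + 1) A)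
  exact (coreII hA hB.1 hε (fun A' h1 _ h2 => hs A' ((adm_iff _ _).mpr h1) fun k _ => h2 k)
    hz).imp (fun h v hv h0 => ⟨hr v, h v hv h0⟩) fun h v hv h0 => ⟨hr v, h v hv h0⟩

end Pool.Agent.Results.MP_9437d9_an.Definite
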